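import Mathlib
import Pool.Agent.Run7.h707.TF.FinM
import Pool.Agent.Run7.h707.TE.Ex

/-!
# The order of vanishing formula of Bloch and Kato at `p = 3` for the motives of diagonal cubic
# hypersurfaces over fields of cube roots, in every family of such hypersurfaces and fields

`K = ℚ(√-3)`, `k = 0, 1, 2`, `r ≥ 0`.  We consider the cubic hypersurfaces and the fields

`X : x_0 X_0³ + … + x_{2k+2} X_{2k+2}³ = 0` of dimension `n = 2 k + 1`,  `F = K(∛d_1, …, ∛d_r)`,

and the polarized motive `M = h^n(X)(k + 1)` over `F` (of weight `-1`; `L(s, M) = L(H^n(X / F), s + k + 1)`).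
The `2 k + 3 + r` elements `x_i`, `d_i` of `𝓞 K` are cube-free and congruent to third roots of unity
modulo `3` (every element prime to `3` is such an element times a cube).  EACH of them may be fixed or
free: let `S` be the set of the free ones and `a = (a_i)_{i ∈ S}` their values, ordered by the maximum
of the norms.  For example

* `S` = everything: all the pairs of a hypersurface and a field;
* all the coefficients fixed, all the generators free: a fixed variety, for instance the Fermat cubic,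
  over all the fields `K(∛d_1, …, ∛d_r)`;
* a fixed field and a family with some fixed and some free coefficients, such as `X³ + Y³ + a Z³ = 0`;
* mixed cases, such as `X³ + Y³ + 2 Z³ + a U³ + b V³ = 0` over `K(∛7, ∛a')`.

For the sets `T` of `k` indices and `ν ∈ (ℤ/3)^r` let `δ_{T,ν} = (∏ x_i) (∏_{i ∈ T} x_i) ∏ d_i^{ν_i}`.  The
`3`-adic realization of `M` over `K` is the sum of the `V_3 E_{δ_{T,0}}`, `E_δ : y² + δ y = x³`, and over `F` the
pairs `(T, ν)` give the twists over `K`.  A pair is moving if `δ_{T,ν}` involves a free element (if one of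
the coefficients is free, or `ν_i ≠ 0` for a free `d_i`).  We suppose that the fixed `d_i` are independent
modulo cubes and that each of the twists that do not move is a cube or not exceptional (exceptional: a
unit times a cube, or `1` modulo `3` with a norm that is `1` modulo `9`).

* The values `a` such that no moving `δ_{T,ν}` is exceptional and no product of powers of the `d_i`
  involving a free one is a unit times a cube have a density `κ ∈ 9^{-|S|} ℤ` among ALL the values,
  positive as soon as there is one such value.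
* For all of them `[F : K] = 3^r` and `L(s, M)` is entire.
* Those for which moreover all the moving `E_{δ_{T,ν}}(K)` are finite and their `Ш[3^∞]` trivial have,
  among ALL the values, exactly the density `κ c₉^N`, `c₉ = ∏_{i ≥ 0} (1 - 3^{-(2 i + 1)}) > 0.639`,
  where `N` is the number of the classes of the moving pairs, two pairs being related if the product of
  one twist with the other or with its square is a cube for all the values of the free elements.
* If in addition this is true for the (finitely many, fixed) twists that do not move, then the formula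
  of the problem holds for `M` over `F` and `p = 3`: `ord_{s=0} L(s, M)`, `H⁰(F, M_3)` and `H¹_f(F, M_3)` are zero.

`H1f 3 W` (`Pool.Agent.Y667.BKP.H1f`, by helper667) is the group of the classes of the continuous
cocycles of the absolute Galois group with values in `V_3 W = T_3 W ⊗ ℚ_3` whose restriction to the
completion at every place is in the image of the Kummer map; this is the condition of Bloch and Kato.
An element of `V_3 W` is described by a sequence of points (`IsV 3 W`).

The starting files treat elliptic curves over `K` and `K(∛D)`.  My files on the rank formula in other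
problems treat the following cases of the classification above: all elements free; a fixed field; a
fixed variety over a fixed field with free generators.

Relation to the motive (not formalized): the decomposition of `H^n(X)` into the `H^1(E_δ)(-k)`, known
(Weil, Shioda and Katsura); the `L`-function here is given by the numbers of points of `X`, and this
file proves that all its eigenvalues are those of the `H^1(E_δ)(-k)`.

Proof: see the headers of the files `Pool/Agent/Run7/h707/{TC,TD,TE,TF}/*.lean`.  The criterion for the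
nonvanishing of `L(E_δ / K, 1)`, the descent of the points and of `Ш` and the large sieve are the joint
work of the seats named in the headers of the imported files.
-/

set_option autoImplicit false

namespace Pool.Agent.Results.MP_ec4e4b_nt.AllFamiliesCubicHypersurfaces

open NumberField IsDedekindDomain WeierstrassCurve
open Pool.Agent.TH841.SH.D (Gal act)
open Pool.Agent.TH841.NF.D (Sha)
open Pool.Agent.Y667.BKP (H1f PSeq IsV)
open scoped Classical

/-- The curve `E_δ : y² + δ y = x³`. -/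
def curve {F : Type} [Field F] (δ : F) : WeierstrassCurve F := ⟨0, 0, δ, 0, 0⟩

/-- The solutions, not all zero, of `∑ a i x i ^ 3 = 0` in the field `F`. -/
def solutions {m : ℕ} {F : Type} [Field F] (a : Fin m → F) : Set (Fin m → F) :=
  {x | x ≠ 0 ∧ ∑ i, a i * x i ^ 3 = 0}

/-- `δ_T = ∏ a i ∏_{i ∈ T} a i`. -/
def twist {m : ℕ} {R : Type} [CommRing R] (a : Fin m → R) (T : Finset (Fin m)) : R :=
  (∏ i, a i) * ∏ i ∈ T, a i

/-- `b^ν = ∏ b i ^ ν i`, the exponents in `{0, 1, 2}`. -/
def power {r : ℕ} {R : Type} [CommRing R] (b : Fin r → R) (ν : Fin r → ZMod 3) : R :=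
  ∏ i, b i ^ (ν i).val

section localData
variable {F : Type} [Field F] [NumberField F]

/-- `A` is the multiset of the eigenvalues of the Frobenius at `v` on `H^n(X)`, for the hypersurface
`X : ∑ a i x i ^ 3 = 0` of dimension `n = 2 c + 1` over `F`: for every extension `k` of degree `m` of the
residue field of `v` (`f` is the reduction), with `q'` elements, the equation has
`(q' - 1) (1 + q' + ... + q'^n - ∑ α^m)` nonzero solutions in `k`. -/
def IsFrobenius {c : ℕ} (a : Fin (2 * c + 3) → 𝓞 F) (v : HeightOneSpectrum (𝓞 F))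
    (A : Multiset ℂ) : Prop :=
  ∀ (k : Type) [Field k] [Finite k] (f : 𝓞 F →+* k) (m : ℕ), RingHom.ker f = v.asIdeal →
    Nat.card k = Ideal.absNorm v.asIdeal ^ m →
    ((solutions fun i => f (a i)).ncard : ℂ) = (Nat.card k - 1) *
      (∑ i ∈ Finset.range (2 * c + 2), (Nat.card k : ℂ) ^ i - (A.map (fun α => α ^ m)).sum)

/-- `δ` is a cube of `F` times an element `r` of `𝓞 F` prime to `v`; so `E_δ` is isomorphic to `E_r`
over `F` and has good reduction at `v`, if `v` does not divide `3`. -/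
def HasGoodReduction (δ : 𝓞 F) (v : HeightOneSpectrum (𝓞 F)) : Prop :=
  ∃ r z z' : 𝓞 F, z ≠ 0 ∧ r ∉ v.asIdeal ∧ δ * z ^ 3 = r * z' ^ 3

/-- For a place `v` not dividing `3`: `B` is the multiset of the eigenvalues of the Frobenius at `v` on
the invariants of inertia of `H^1(E_δ)(-c)`.  If `δ` is a cube times an element `r` prime to `v`, it
consists of `N(v)^c β` and `N(v)^c conj β`, where `β conj β = N(v)` and the affine curve
`y² + r y = x³` has `N(v) - (β + conj β)` points over the residue field; otherwise it is empty. -/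
def IsLocal (δ : 𝓞 F) (v : HeightOneSpectrum (𝓞 F)) (c : ℕ) (B : Multiset ℂ) : Prop :=
  (∃ r z z' : 𝓞 F, z ≠ 0 ∧ r ∉ v.asIdeal ∧ δ * z ^ 3 = r * z' ^ 3 ∧ ∃ β : ℂ,
    β * (starRingEnd ℂ) β = Ideal.absNorm v.asIdeal ∧
    (Nat.card {P : (𝓞 F ⧸ v.asIdeal) × (𝓞 F ⧸ v.asIdeal) //
      P.2 ^ 2 + Ideal.Quotient.mk v.asIdeal r * P.2 = P.1 ^ 3} : ℂ) =
        Ideal.absNorm v.asIdeal - (β + (starRingEnd ℂ) β) ∧
    B = {(Ideal.absNorm v.asIdeal : ℂ) ^ c * β,
      (Ideal.absNorm v.asIdeal : ℂ) ^ c * (starRingEnd ℂ) β}) ∨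
  (¬ HasGoodReduction δ v ∧ B = 0)

/-- `L` is entire and equal to `L(H^n(X_a / F), s)` for `Re s > n / 2 + 1`, for the hypersurface
`X_a : ∑ a i x i ^ 3 = 0` of dimension `n = 2 c + 1` over `F`.  At the places `v` not dividing `3 ∏ a i` the
`2 (2c+3 choose c)` eigenvalues of the Frobenius have the absolute value `N(v)^(n / 2)`.  At all the
places not dividing `3` the eigenvalues are those of the `H^1(E_{δ_T})(-c)` together, `T` running through
the sets of `c` indices.  At the places dividing `3` the Euler factor is `1`. -/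
def IsLFunction {c : ℕ} (a : Fin (2 * c + 3) → 𝓞 F) (L : ℂ → ℂ) : Prop :=
  Differentiable ℂ L ∧ ∃ A : HeightOneSpectrum (𝓞 F) → Multiset ℂ,
    (∀ v, (3 : 𝓞 F) ∉ v.asIdeal → (∀ i, a i ∉ v.asIdeal) → IsFrobenius a v (A v) ∧
      (A v).card = 2 * (2 * c + 3).choose c ∧
      ∀ α ∈ A v, ‖α‖ ^ 2 = (Ideal.absNorm v.asIdeal : ℝ) ^ (2 * c + 1)) ∧
    (∀ v, (3 : 𝓞 F) ∉ v.asIdeal → ∃ B : Finset (Fin (2 * c + 3)) → Multiset ℂ,
      (∀ T : Finset (Fin (2 * c + 3)), T.card = c → IsLocal (twist a T) v c (B T)) ∧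
      A v = ∑ T ∈ (Finset.univ : Finset (Fin (2 * c + 3))).powersetCard c, B T) ∧
    (∀ v, (3 : 𝓞 F) ∈ v.asIdeal → A v = 0) ∧
    ∀ s : ℂ, (2 * c + 1 : ℝ) / 2 + 1 < s.re →
      HasProd (fun v : HeightOneSpectrum (𝓞 F) => ((A v).map
        (fun α => (1 - α * (Ideal.absNorm v.asIdeal : ℂ) ^ (-s))⁻¹)).prod) (L s)

end localData

/-- `H⁰(F, V_3 W) = 0`: the elements of `V_3 W` that are fixed by the Galois group are zero. -/
def NoInvariants {F : Type} [Field F] (W : WeierstrassCurve F) : Prop :=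
  ∀ x : PSeq W, IsV 3 W x → (∀ (σ : Gal F) (n : ℕ), act W σ.toAlgHom (x n) = x n) → ∀ n, x n = 0

variable {K : Type} [Field K] [NumberField K]

/-- `F` is generated over `K` by the cube roots `θ i` of the elements `d i`. -/
def IsRadical {r : ℕ} (d : Fin r → 𝓞 K) (F : Type) [Field F] [Algebra K F] (θ : Fin r → F) : Prop :=
  (∀ i, θ i ^ 3 = algebraMap K F (d i)) ∧
    ∀ S : Subfield F, (∀ x : K, algebraMap K F x ∈ S) → (∀ i, θ i ∈ S) → S = ⊤

/-- `a` is cube-free and congruent to a third root of unity modulo `3`. -/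
def Admissible (a : 𝓞 K) : Prop :=
  (∀ x : 𝓞 K, x ^ 3 ∣ a → IsUnit x) ∧ ∃ ω : 𝓞 K, ω ^ 3 = 1 ∧ (3 : 𝓞 K) ∣ a - ω

/-- `δ` is a unit times a cube. -/
def UnitTimesCube (δ : 𝓞 K) : Prop := ∃ u x : 𝓞 K, IsUnit u ∧ δ = u * x ^ 3

/-- `δ` is `1` modulo `3` and its norm is `1` modulo `9`. -/
def IsOne (δ : 𝓞 K) : Prop := (3 : 𝓞 K) ∣ δ - 1 ∧ (9 : ℤ) ∣ Algebra.norm ℤ δ - 1

/-- `δ` is a unit times a cube, or `1` modulo `3` with a norm that is `1` modulo `9`. -/
def Exceptional (δ : 𝓞 K) : Prop :=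
  (∃ u x : 𝓞 K, IsUnit u ∧ δ = u * x ^ 3) ∨
    ((3 : 𝓞 K) ∣ δ - 1 ∧ (9 : ℤ) ∣ Algebra.norm ℤ δ - 1)

/-- The values: `a i` for the indices in `S`, `b i` for the others. -/
noncomputable def value {B : Type} (S : Finset B) (b : B → 𝓞 K) (a : ↥S → 𝓞 K) (i : B) : 𝓞 K :=
  if h : i ∈ S then a ⟨i, h⟩ else b i

/-- The family: the set `S` of the free ones of the `2 k + 3` coefficients and `r` generators, and the
values `b` of the others (the `b i` for `i ∈ S` are not used). -/
structure Data (K : Type) [Field K] (k r : ℕ) where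
  S : Finset (Fin (2 * k + 3) ⊕ Fin r)
  b : Fin (2 * k + 3) ⊕ Fin r → 𝓞 K

/-- The coefficients of the hypersurface. -/
noncomputable def coeff {k r : ℕ} (D : Data K k r) (a : ↥D.S → 𝓞 K) (i : Fin (2 * k + 3)) : 𝓞 K :=
  value D.S D.b a (Sum.inl i)

/-- The generators of the field. -/
noncomputable def gen {k r : ℕ} (D : Data K k r) (a : ↥D.S → 𝓞 K) (i : Fin r) : 𝓞 K :=
  value D.S D.b a (Sum.inr i)

/-- The twist `δ_{T,ν}`. -/
noncomputable def delta {k r : ℕ} (D : Data K k r) (T : Finset (Fin (2 * k + 3)))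
    (ν : Fin r → ZMod 3) (a : ↥D.S → 𝓞 K) : 𝓞 K := twist (coeff D a) T * power (gen D a) ν

/-- The product of powers of the generators with the exponents `ν` involves a free one. -/
def MovingField {k r : ℕ} (D : Data K k r) (ν : Fin r → ZMod 3) : Prop :=
  ∃ i, Sum.inr i ∈ D.S ∧ ν i ≠ 0

/-- The twists `δ_{T,ν}` involve a free element. -/
def Moving {k r : ℕ} (D : Data K k r) (ν : Fin r → ZMod 3) : Prop :=
  (∃ i, Sum.inl i ∈ D.S) ∨ ∃ i, Sum.inr i ∈ D.S ∧ ν i ≠ 0

/-- The twist `δ_{T,ν}` of the values `b`; it is `delta D T ν a` for all `a`, if `(T, ν)` does not move. -/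
def fixedTwist {k r : ℕ} (D : Data K k r) (T : Finset (Fin (2 * k + 3))) (ν : Fin r → ZMod 3) :
    𝓞 K := twist (fun i => D.b (Sum.inl i)) T * power (fun i => D.b (Sum.inr i)) ν

/-- The values `b` are admissible, the fixed generators are independent modulo cubes, and the twists
that do not move are cubes or not exceptional. -/
def IsData {k r : ℕ} (D : Data K k r) : Prop :=
  (∀ i, Admissible (D.b i)) ∧
  (∀ ν : Fin r → ZMod 3, ν ≠ 0 → ¬ MovingField D ν → ∀ y : 𝓞 K,
    y ^ 3 ≠ power (fun i => D.b (Sum.inr i)) ν) ∧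
  ∀ T : Finset (Fin (2 * k + 3)), T.card = k → ∀ ν : Fin r → ZMod 3, ¬ Moving D ν →
    ¬ Exceptional (fixedTwist D T ν) ∨ ∃ y : 𝓞 K, fixedTwist D T ν = y ^ 3

/-- The moving pairs `(T, ν)`, `T` a set of `k` indices. -/
abbrev Index {k r : ℕ} (D : Data K k r) : Type :=
  {p : ↥((Finset.univ : Finset (Fin (2 * k + 3))).powersetCard k) × (Fin r → ZMod 3) //
    Moving D p.2}

/-- The twist of a moving pair. -/
noncomputable def twistAt {k r : ℕ} (D : Data K k r) (p : Index D) (a : ↥D.S → 𝓞 K) : 𝓞 K :=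
  delta D p.1.1.1 p.1.2 a

/-- Related pairs: `δ δ'` or `δ δ'²` is a cube for all the values of the free elements. -/
def Related {k r : ℕ} (D : Data K k r) (p p' : Index D) : Prop :=
  ∃ e : ℕ, (e = 1 ∨ e = 2) ∧ ∀ a : ↥D.S → 𝓞 K, ∃ x : 𝓞 K, twistAt D p a * twistAt D p' a ^ e = x ^ 3

/-- `R` is a system of representatives for the related pairs. -/
def IsSystem {k r : ℕ} (D : Data K k r) (R : Finset (Index D)) : Prop :=
  (∀ p ∈ R, ∀ p' ∈ R, p ≠ p' → ¬ Related D p p') ∧ ∀ p, ∃ p' ∈ R, Related D p p'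

/-- No moving twist is exceptional and no moving product of powers of the generators is a unit times a
cube. -/
def InFamily {k r : ℕ} (D : Data K k r) (a : ↥D.S → 𝓞 K) : Prop :=
  (∀ p : Index D, ¬ Exceptional (twistAt D p a)) ∧
  ∀ ν : {ν : Fin r → ZMod 3 // MovingField D ν}, ¬ UnitTimesCube (power (gen D a) ν.1)

/-- `E_δ(K)` is finite and the `3`-primary part of `Ш(E_δ / K)` is trivial. -/
def FiniteAndTrivial (δ : 𝓞 K) : Prop :=
  Finite (curve (δ : K)).toAffine.Point ∧ ∀ (n : ℕ) (x : Sha (curve (δ : K))), 3 ^ n • x = 0 → x = 0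

/-- For the moving pairs the `E_δ(K)` are finite and the `Ш(E_δ / K)[3^∞]` trivial. -/
def MovingTrivial {k r : ℕ} (D : Data K k r) (a : ↥D.S → 𝓞 K) : Prop :=
  ∀ p : Index D, FiniteAndTrivial (twistAt D p a)

/-- For the fixed twists the `E_δ(K)` are finite and the `Ш(E_δ / K)[3^∞]` trivial. -/
def FixedTrivial {k r : ℕ} (D : Data K k r) : Prop :=
  ∀ T : Finset (Fin (2 * k + 3)), T.card = k → ∀ ν : Fin r → ZMod 3, ¬ Moving D ν →
    FiniteAndTrivial (fixedTwist D T ν)

/-- Nine representatives of the classes: `ω (1 + 3 m)`, `ω³ = 1`, `m = 0, 1, 2`. -/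
def nine (K : Type) [Field K] : Set (𝓞 K) :=
  {x | ∃ (ω : 𝓞 K) (m : ℕ), ω ^ 3 = 1 ∧ m < 3 ∧ x = ω * (1 + 3 * m)}

/-- The density of the family: the proportion of the tuples of representatives such that no moving
twist is `1` modulo `3` with a norm that is `1` modulo `9`. -/
noncomputable def kappa {k r : ℕ} (D : Data K k r) : ℝ :=
  ({u : ↥D.S → 𝓞 K | (∀ i, u i ∈ nine K) ∧ ∀ p : Index D, ¬ IsOne (twistAt D p u)}.ncard : ℝ) /
    9 ^ D.S.card

/-- The number of the admissible tuples of norm at most `X` with the property `P`. -/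
noncomputable def number {I : Type} (X : ℕ) (P : (I → 𝓞 K) → Prop) : ℝ :=
  ({a : I → 𝓞 K | (∀ i, Algebra.norm ℤ (a i) ≤ X ∧ Admissible (a i)) ∧ P a}.ncard : ℝ)

/-- The property `P` has the density `δ` among all the admissible tuples. -/
def HasDensity {I : Type} (P : (I → 𝓞 K) → Prop) (δ : ℝ) : Prop :=
  Filter.Tendsto (fun X : ℕ => number X P / number X (fun _ : I → 𝓞 K => True)) Filter.atTop
    (nhds δ)

/-- The order of vanishing formula for `M = h^(2k+1)(X)(k+1)` over `F`, `X : ∑ x i X i ^ 3 = 0`, and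
`p = 3`, both sides being zero: `L`, which is `L(H^(2k+1)(X / F), s)`, does not vanish at `k + 1`, and
`H⁰(F, V_3 E_δ)` and `H¹_f(F, V_3 E_δ)` are zero for all the curves `E_δ`, `δ = δ_T`. -/
def OrderFormula {k : ℕ} (x : Fin (2 * k + 3) → 𝓞 K) (F : Type) [Field F] [NumberField F]
    [Algebra K F] (L : ℂ → ℂ) : Prop :=
  analyticOrderAt L (k + 1) = 0 ∧ ∀ T : Finset (Fin (2 * k + 3)), T.card = k →
    (curve (algebraMap K F (twist x T : 𝓞 K))).IsElliptic ∧
    NoInvariants (curve (algebraMap K F (twist x T : 𝓞 K))) ∧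
    ∀ y : H1f 3 (curve (algebraMap K F (twist x T : 𝓞 K))), y = 0

/-- The statement on `X_a` over `F = F_a`. -/
def Conclusion {k r : ℕ} (D : Data K k r) (a : ↥D.S → 𝓞 K) (F : Type) [Field F] [NumberField F]
    [Algebra K F] : Prop :=
  ∃ L : ℂ → ℂ, IsLFunction (fun i => algebraMap (𝓞 K) (𝓞 F) (coeff D a i)) L ∧
    (FixedTrivial D → MovingTrivial D a → OrderFormula (coeff D a) F L)

/-- **Main theorem.** -/
theorem result (K : Type) [Field K] [NumberField K] [IsCyclotomicExtension {3} ℚ K] :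
    (0.639 : ℝ) < ∏' i : ℕ, (1 - (1 / 3 : ℝ) ^ (2 * i + 1)) ∧
    ∀ (k r : ℕ) (D : Data K k r), k ≤ 2 → IsData D →
      ((∃ a : ↥D.S → 𝓞 K, (∀ i, Admissible (a i)) ∧ InFamily D a) → 0 < kappa D) ∧
      (∃ C : ℝ, 0 < C ∧ ∃ X₀ : ℕ, ∀ X : ℕ, X₀ ≤ X →
        C * (X : ℝ) ^ D.S.card ≤ number X (fun _ : ↥D.S → 𝓞 K => True)) ∧
      HasDensity (InFamily D) (kappa D) ∧
      (∃ R, IsSystem D R) ∧
      (∀ R, IsSystem D R → HasDensity (fun a : ↥D.S → 𝓞 K => InFamily D a ∧ MovingTrivial D a)
        (kappa D * (∏' i : ℕ, (1 - (1 / 3 : ℝ) ^ (2 * i + 1))) ^ R.card)) ∧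
      ∀ a : ↥D.S → 𝓞 K, (∀ i, Admissible (a i)) → InFamily D a →
        (∃ (F : Type) (_ : Field F) (_ : NumberField F) (_ : Algebra K F) (θ : Fin r → F),
          IsRadical (gen D a) F θ) ∧
        ∀ (F : Type) [Field F] [NumberField F] [Algebra K F] (θ : Fin r → F),
          IsRadical (gen D a) F θ → Module.finrank K F = 3 ^ r ∧ Conclusion D a F := by
  refine ⟨Pool.Agent.XLK.t_C9.2.2.2.1, fun k r D hk hD => ?_⟩
  obtain ⟨hb, hind, hE⟩ := hD
  obtain ⟨S, b⟩ := D
  have e : ∀ X : ℕ, number X (fun _ : ↥S → 𝓞 K => True) =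
      ({a : ↥S → 𝓞 K | ∀ i, Algebra.norm ℤ (a i) ≤ X ∧ Admissible (a i)}.ncard : ℝ) := by
    intro X
    unfold number
    simp only [and_true]
  have hex : ∃ R, IsSystem ⟨S, b⟩ R := Run7.h707.TF.ex_relT (S := S)
    (J₀ := (Finset.univ : Finset (Fin (2 * k + 3))).powersetCard k) (b := b)
  obtain ⟨R₀, hR₀⟩ := hex
  obtain ⟨h0, h1, h2, h3, h4⟩ := Run7.h707.TF.finM K hk (S := S) hb hind hE R₀ hR₀.1 hR₀.2
  refine ⟨?_, ?_, ?_, ⟨R₀, hR₀⟩, fun R hR => ?_, fun a ha hF => ⟨?_, fun F _ _ _ θ hθ => ?_⟩⟩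
  · rintro ⟨a, ha, haF⟩
    exact h0 ⟨a, ha, haF.1⟩
  · simp only [e]
    exact h1
  · unfold HasDensity
    simp only [e]
    exact h2
  · obtain ⟨-, -, -, h3', -⟩ := Run7.h707.TF.finM K hk (S := S) hb hind hE R hR.1 hR.2
    unfold HasDensity
    simp only [e]
    exact h3'
  · exact Run7.h707.TE.ex_F (fun i => (gen ⟨S, b⟩ a i : K))
  · obtain ⟨hdim, L, l1, l2⟩ := h4 a ha hF.1 hF.2 F θ hθ.1 hθ.2
    refine ⟨hdim, L, l1, fun hB hN => ?_⟩
    obtain ⟨h5, h6⟩ := l2 fun T hT ν => by
      by_cases h : Moving (⟨S, b⟩ : Data K k r) ν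
      · exact hN ⟨(⟨T, Run7.h707.TC.mem_SS.2 hT⟩, ν), h⟩
      · have h7 : FiniteAndTrivial (fixedTwist (⟨S, b⟩ : Data K k r) T ν) := hB T hT ν h
        have h8 := Run7.h707.TF.twM_fix (S := S) (b := b) (T := T) h a
        rw [h8]
        exact h7
    have hne : ∀ T : Finset (Fin (2 * k + 3)), twist (coeff (⟨S, b⟩ : Data K k r) a) T ≠ 0 :=
      fun T => Run7.h707.TF.dt_ne (fun i =>
        Run7.h707.TE.ne_of_famO (Run7.h707.TF.mx_fam S hb ha (Sum.inl i))) T
    refine ⟨?_, fun T hT => ⟨?_, ?_⟩⟩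
    · exact analyticOrderAt_eq_zero.2 (Or.inr h5)
    · refine ⟨isUnit_iff_ne_zero.2 ?_⟩
      have h9 : algebraMap K F (twist (coeff (⟨S, b⟩ : Data K k r) a) T : 𝓞 K) ≠ 0 := by
        rw [Ne, map_eq_zero_iff _ (algebraMap K F).injective]
        exact_mod_cast hne T
      have h10 : (curve (algebraMap K F (twist (coeff (⟨S, b⟩ : Data K k r) a) T : 𝓞 K))).Δ = _ :=
        Pool.Agent.N883.DQ.ED_disc _
      rw [h10]
      exact mul_ne_zero (by norm_num) (pow_ne_zero 4 h9)
    · exact Run7.h707.TF.bk_of (h6 T hT).1 r (h6 T hT).2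

end Pool.Agent.Results.MP_ec4e4b_nt.AllFamiliesCubicHypersurfaces
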