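import Pool.Agent.Run7.h359.Evp
import Pool.Agent.Run7.h359.La13

/-!
# The Bloch–Kato ranks are at most the orders of vanishing, for motives of all even weights and fields
# of unbounded degree

Let `E_M` be the quadratic twist by `M` of `X_0(49)`, `ψ_M` its Hecke character over
`K = ℚ(√-7) = ℚ(w)`, `w² = w - 2`, let `F = ℚ(√d_1, …, √d_n)`, a totally real field, and `L = F(√-7)`.
For `k > 0` let `M_k` be the polarized Chow motive of rank two over `ℚ`, the part of
`h^{2k-1}(E_M^{2k-1})(k)` that belongs to `ψ_M^{2k-1}` and its complex conjugate, that is, to the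
newform of weight `2k` with rational coefficients of `ψ_M^{2k-1}`.

* The Euler factor of `M_k` over `F` at the place `v` of `F` is
  `1 / ((1 - α^{2k-1} q^{-s-k}) (1 - β^{2k-1} q^{-s-k}))`, where `(1 - α T) (1 - β T)` is the local
  polynomial of `E_M` at `v` (of Mathlib) and `q` is the norm of `v`. As `M_k` is isomorphic to its twist by
  the character of `K`, the `L`-function over `L` is the square of the one over `F`.
* The representation of `Gal(ℚ̄/K)` is the sum of the characters `κ^k κ'^(1-k)` and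
  `κ^(1-k) κ'^k`, where `κ`, `κ'` are the characters by which `Gal(ℚ̄/K)` acts on the `2`-adic
  Tate module of `E_M`; the representation of `Gal(ℚ̄/ℚ)` is induced from the first of them.

The class consists of the squarefree `D = 1 mod 8` with all prime factors `1 mod 4`. A pair of `M` and
`d_1, …, d_n` is good if all the `M ∏_{i ∈ T} d_i` are, up to squares, numbers `D` of the class such that
`E_D(ℚ)` is finite and `Ш(E_D/ℚ)` has no element of order two, a condition on the weight `2` and the field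
`ℚ` only.

Theorem: if the pair is good and `d_1, …, d_n` are independent modulo squares, so that `[F : ℚ] = 2^n`,
then for the motives `M_k` with **all even** `k > 0` and the prime `p = 2` the dimension of the
Bloch–Kato Selmer group is at most the order of vanishing at the centre, over `F` and over `L`, and `H⁰`
is zero:

  `dim H¹_f(F, V_k) - dim H⁰(F, V_k) ≤ 2^n ≤ ord_{s=0} L(M_k/F, s) < ∞`,
  `dim H¹_f(L, V_k) - dim H⁰(L, V_k) ≤ 2^{n+1} ≤ ord_{s=0} L(M_k/L, s) < ∞`.

So the orders of vanishing are not bounded. Together with `OddWeightsMultiquadratic` (`k` odd, both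
sides of the formula zero) the rank is at most the order of vanishing for these motives of **all**
weights. For all independent `d_1, …, d_n` of the class (in particular `n = 0`, `F = ℚ`, `L = K`) this is
so for **exactly** the proportion `c ^ 2 ^ n`, `c = 0.4194…`, of the twists `M D`, `D` in the class (of
order of magnitude `X / √(log X)`, Landau), and for **exactly** the proportion `c ^ 2 ^ n / 4` of all
the pairs `(a, b)` of integers the number `N = a² + b²` is `1 mod 8` and the pair `(M N, d)` is good.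
Every good pair remains good for exactly the proportion `c ^ 2 ^ n` of the `d_{n+1} = D` of the class.

New: the zeros of the `L`-functions. They are forced by the functional equations, which are proved here
with their signs (`Run7/h359/Fes`): the sign in weight `2k` is `(-1)^(k-1)` times the one in weight
`2`, and the latter is `1` as the value in weight `2` is not zero. The Selmer groups over `F` were
bounded for a subclass in the starting file `MP_6e2fc3_nt/CMFormsEvenWeights`; this is extended to the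
class here.
-/

set_option autoImplicit false

namespace Pool.Agent.Results.MP_ec4e4b_nt.EvenWeightsInequality

open Pool.Agent.Results.MP_787500_nt.AllWeightsMultiquadraticX49
open Pool.Agent.Results.MP_6e2fc3_nt.CMFormsAllWeights
open NumberField IsDedekindDomain WeierstrassCurve Filter Topology
open scoped Classical

/-! ### The `L`-functions -/

/-- `α ^ n + β ^ n`, where `α + β = a` and `α β = e`. -/
def powerSum (a e : ℤ) : ℕ → ℤ
  | 0 => 2
  | 1 => a
  | n + 2 => a * powerSum a e (n + 1) - e * powerSum a e n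

/-- The local polynomial `1 - a T + e T² = (1 - α T) (1 - β T)` of the curve `W` over the number field
`F` at the place `v`: at the places of good reduction `e` is the norm `q` of `v` and
`a = q + 1 - #W(k_v)`, and the polynomial is `1` at the places of additive reduction. -/
noncomputable def localPoly {F : Type} [Field F] [NumberField F] (W : WeierstrassCurve F)
    (v : HeightOneSpectrum (𝓞 F)) : Polynomial ℤ :=
  (W.baseChange (v.adicCompletion F)).localPolynomial (v.adicCompletionIntegers F)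

/-- The Euler factor `1 / ((1 - α ^ n q^{-s}) (1 - β ^ n q^{-s}))`, where `(1 - α T) (1 - β T)` is the
local polynomial of the curve `W` at the place `v` of norm `q`. -/
noncomputable def factor {F : Type} [Field F] [NumberField F] (W : WeierstrassCurve F) (n : ℕ) (s : ℂ)
    (v : HeightOneSpectrum (𝓞 F)) : ℂ :=
  (1 - (powerSum (-(localPoly W v).coeff 1) ((localPoly W v).coeff 2) n : ℂ) *
      (Ideal.absNorm v.asIdeal : ℂ) ^ (-s) +
    ((localPoly W v).coeff 2 : ℂ) ^ n * ((Ideal.absNorm v.asIdeal : ℂ) ^ (-s)) ^ 2)⁻¹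

/-- `Λ` is the entire continuation of the `L`-function over `F` of the newform of weight `2k` that belongs
to the curve `W` with complex multiplication: the Euler product over the places of `F` with the factors
`factor W (2k-1) s` converges to `Λ(s)` for `Re s > k + 1/2`. The centre is `s = k`. -/
def IsLFunction {F : Type} [Field F] [NumberField F] (W : WeierstrassCurve F) (k : ℕ)
    (Λ : ℂ → ℂ) : Prop :=
  Differentiable ℂ Λ ∧
    ∀ s : ℂ, (k : ℝ) + 1 / 2 < s.re → HasProd (factor W (2 * k - 1) s) (Λ s)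

/-- The field `F = ℚ(s_1, …, s_n)`. -/
noncomputable abbrev Fld {n : ℕ} (s : Fin n → QBar) : IntermediateField ℚ QBar :=
  IntermediateField.adjoin ℚ (Set.range s)

instance numField {n : ℕ} (s : Fin n → QBar) : NumberField (Fld s) := Run7.h359.FE.nf_adj s

/-- The curve `E_M` over `F = ℚ(s_1, …, s_n)`. -/
noncomputable def EF {n : ℕ} (s : Fin n → QBar) (M : ℕ) : WeierstrassCurve (Fld s) :=
  (E M).map (algebraMap ℚ (Fld s))

/-! ### The class -/

/-- The class: `D = 1 mod 8` is squarefree, and all its prime factors are `1 mod 4`. -/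
def Wide (D : ℕ) : Prop := Squarefree D ∧ D % 8 = 1 ∧ ∀ p : ℕ, p.Prime → p ∣ D → p % 4 = 1

/-- The good pairs: all the numbers `M ∏_{i ∈ T} d_i` are, up to nonzero squares, numbers `D` of the
class such that `E_D(ℚ)` is finite and `Ш(E_D/ℚ)` has no element of order two. -/
def GoodPair (M : ℕ) {n : ℕ} (d : Fin n → ℕ) : Prop := ∀ T : Finset (Fin n), ∃ D k : ℕ,
  k ≠ 0 ∧ Wide D ∧ RankZeroShaTwo D ∧ M * ∏ i ∈ T, d i = D * k ^ 2

/-- For large `X` at least `a X / √(log X)` of the `D ≤ X` of the class have the property `P`,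
with a constant `a > 0`. -/
def OfOrder (P : ℕ → Prop) : Prop := ∃ (a : ℝ) (X₀ : ℕ), 0 < a ∧ ∀ X : ℕ, X₀ ≤ X →
  a * X / Real.sqrt (Real.log X) ≤ (((Finset.Icc 1 X).filter fun D => Wide D ∧ P D).card : ℝ)

/-- The property `P` holds for the proportion `δ` of the numbers `D` of the class. -/
def Proportion (δ : ℝ) (P : ℕ → Prop) : Prop := Tendsto (fun X : ℕ =>
  (((Finset.Icc 1 X).filter fun D => Wide D ∧ P D).card : ℝ) /
    (((Finset.Icc 1 X).filter fun D => Wide D).card : ℝ)) atTop (𝓝 δ)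

/-- The number of the pairs `(a, b)` of integers with `a² + b² ≤ X` and with `P (a² + b²)`. -/
noncomputable def pairs (P : ℕ → Prop) (X : ℕ) : ℕ :=
  Nat.card {v : ℤ × ℤ // v.1.natAbs ^ 2 + v.2.natAbs ^ 2 ≤ X ∧ P (v.1.natAbs ^ 2 + v.2.natAbs ^ 2)}

/-- `P (a² + b²)` holds for the proportion `δ` of all the pairs `(a, b)` of integers, ordered by
`a² + b²`. -/
def PairProportion (δ : ℝ) (P : ℕ → Prop) : Prop := Tendsto (fun X : ℕ =>
  (pairs P X : ℝ) / (pairs (fun _ => True) X : ℝ)) atTop (𝓝 δ)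

/-! ### The Galois cohomology -/

/-- `H⁰(L, ℚ_2(χ)) = 0` for `L = K(s_1, …, s_n)`. -/
def NoInvariants {w : QBar} {n : ℕ} (s : Fin n → QBar) (χ : Chr w) : Prop :=
  ∀ y : ℚ_[2], (∀ σ ∈ GalL w s, qv χ σ * y = y) → y = 0

/-- `H⁰(F, V) = 0` for `F = ℚ(s_1, …, s_n)` and the representation `V` induced from `χ`. -/
def NoInvariantsF {w : QBar} {n : ℕ} (s : Fin n → QBar) (χ : Chr w) (c₀ : GQ) : Prop :=
  ∀ y : ℚ_[2] × ℚ_[2], (∀ σ ∈ GF s, ind χ c₀ σ y = y) → y = 0

/-- The vector space `A` has dimension at most `N` modulo `B`: any `N + 1` of its elements have a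
nontrivial linear combination in `B`. -/
def DimLE {V : Type} [AddCommGroup V] [Module ℚ_[2] V] (A B : Set V) (N : ℕ) : Prop :=
  ∀ b : Fin (N + 1) → V, (∀ i, b i ∈ A) → ∃ a : Fin (N + 1) → ℚ_[2], a ≠ 0 ∧ ∑ i, a i • b i ∈ B

/-- `H¹_f(F, V)` has dimension at most `N`, for `F = ℚ(s_1, …, s_n)` and the representation `V` induced
from `χ`. -/
def DimF {w : QBar} {n : ℕ} (s : Fin n → QBar) (χ : Chr w) (c₀ : GQ) (N : ℕ) : Prop :=
  DimLE {b | IsCocycleF s χ c₀ b ∧ IsSelmerF s χ c₀ b} {b | TrivialOnF s χ c₀ Set.univ b} N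

/-- `H¹_f(L, ℚ_2(χ))` has dimension at most `N`, for `L = K(s_1, …, s_n)`; `v` is as in `IsSelmer`. -/
def DimL {w : QBar} {n : ℕ} (v : QBar) (s : Fin n → QBar) (χ : Chr w) (N : ℕ) : Prop :=
  DimLE {c | IsCocycle (GalL w s) χ c ∧ IsSelmer v (GalL w s) χ c}
    {c | TrivialOn (GalL w s) χ Set.univ c} N

/-! ### The inequalities -/

/-- The inequalities over `F = ℚ(s_1, …, s_n)`: the `L`-function `Λ` over `F` is entire, its order of
vanishing at the centre `k` is finite and at least `2 ^ n`, and for the representation `V` induced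
from the character `κ^k κ'^(1-k)` the group `H⁰(F, V)` is zero and `H¹_f(F, V)` has dimension at most
`2 ^ n`. -/
def BoundF (M : ℕ) {w : QBar} {n : ℕ} (s : Fin n → QBar) (κ κ' : Chr w) (k : ℕ) (Λ : ℂ → ℂ) : Prop :=
  (IsLFunction (EF s M) k Λ ∧ analyticOrderAt Λ k ≠ ⊤ ∧ ((2 ^ n : ℕ) : ℕ∞) ≤ analyticOrderAt Λ k) ∧
  ∀ c₀ : GQ, c₀ w = 1 - w → NoInvariantsF s (chi κ κ' k) c₀ ∧ DimF s (chi κ κ' k) c₀ (2 ^ n)

/-- The inequalities over `L = K(s_1, …, s_n)`: the `L`-function `Λ ^ 2` over `L` is entire, its order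
of vanishing at the centre `k` is finite and at least `2 ^ (n + 1)`, and for each of the two characters
`κ^k κ'^(1-k)` and `κ^(1-k) κ'^k` of `Gal(ℚ̄/L)`, whose sum is the representation, `H⁰` is zero and
`H¹_f` has dimension at most `2 ^ n`. -/
def BoundL {w : QBar} {n : ℕ} (s : Fin n → QBar) (κ κ' : Chr w) (k : ℕ) (Λ : ℂ → ℂ) : Prop :=
  (Differentiable ℂ (fun z => Λ z ^ 2) ∧ analyticOrderAt (fun z => Λ z ^ 2) k ≠ ⊤ ∧
    ((2 ^ (n + 1) : ℕ) : ℕ∞) ≤ analyticOrderAt (fun z => Λ z ^ 2) k) ∧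
  (NoInvariants s (chi κ κ' k) ∧ NoInvariants s (chi κ κ' (1 - k))) ∧
  DimL (1 - w) s (chi κ κ' k) (2 ^ n) ∧ DimL w s (chi κ κ' (1 - k)) (2 ^ n)

/-- For **all** even `k > 0` the inequalities hold for `p = 2` and the motive `M_k` over
`F = ℚ(√d_1, …, √d_n)` and over `L = F(√-7)`: the curve `E_M` is over `K = ℚ(w)` isomorphic to the
elliptic curve `ED w (tw M)`, the absolute Galois group of `K` acts on its `2`-adic Tate module by
`κ`, `κ'`, and the inequalities hold for the `L`-functions and the representations made from these. -/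
def AllBounds (M : ℕ) {n : ℕ} (d : Fin n → ℕ) : Prop := ∀ w : QBar, w ^ 2 = w - 2 →
  Iso (EK w M) (ED w (tw M)) ∧ (ED w (tw M)).IsElliptic ∧
  ∃ κ κ' : Chr w, TateModule (tw M) κ κ' ∧
    ∀ s : Fin n → QBar, (∀ i, s i ^ 2 = (d i : QBar)) → ∀ k : ℕ, 0 < k → Even k →
      ∃ Λ : ℂ → ℂ, BoundF M s κ κ' k Λ ∧ BoundL s κ κ' k Λ

theorem powerSum_eq (a e : ℤ) : ∀ n : ℕ, powerSum a e n =
    Pool.Agent.Results.MP_ec4e4b_nt.OddWeightsMultiquadratic.powerSum a e n
  | 0 => rfl
  | 1 => rfl
  | n + 2 => by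
    rw [powerSum, Pool.Agent.Results.MP_ec4e4b_nt.OddWeightsMultiquadratic.powerSum,
      powerSum_eq a e (n + 1), powerSum_eq a e n]

theorem all_bounds {M n : ℕ} {d : Fin n → ℕ} (hG : GoodPair M d) (hI : Ind d) : AllBounds M d := by
  intro w hw
  obtain ⟨hM0, hd0⟩ := Run7.h359.WD.good_ne' hG
  obtain ⟨κ, κ', ht, r, I, kd⟩ := Pool.Agent.Kdt384.exists_tate hw hM0
  refine ⟨tw_iso hw M, elliptic (tw_ne hM0) hw, κ, κ', ht, fun s hs k hk0 hk => ?_⟩
  obtain ⟨h1, h2, h3⟩ := Run7.h359.EV.selmer hG hw kd hs (k := (k : ℤ)) (by exact_mod_cast hk)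
  have hinv : ∀ j : ℤ, ∃ σ ∈ GalL w s, qv (chi κ κ' j) σ ≠ 1 := fun j =>
    Run7.h359.IV.chi_ne hw hM0 hd0 kd hs j
  obtain ⟨Λ, g1, g2, g3⟩ := Run7.h359.EV.lfun hG hI hs hk hk0
  have g4 := Run7.h359.EV.order_sq g1.1 g2 g3
  refine ⟨Λ, ⟨⟨⟨g1.1, fun z hz => ?_⟩, g2, g3⟩, fun c₀ hc₀ =>
    ⟨Run7.h359.IV.noInvF_of hs hc₀ (hinv k), h1 c₀ hc₀⟩⟩, ⟨g1.1.pow 2, g4⟩,
    ⟨Run7.h359.IV.noInvL_of (hinv k), Run7.h359.IV.noInvL_of (hinv (1 - k))⟩, h2, h3⟩
  have e : factor (EF s M) (2 * k - 1) z =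
      Pool.Agent.Results.MP_ec4e4b_nt.OddWeightsMultiquadratic.factor (EF s M) (2 * k - 1) z := by
    funext v
    unfold factor
    rw [powerSum_eq]
    rfl
  rw [e]
  exact g1.2 z hz

theorem ofOrder_of {P : ℕ → Prop} {a : ℝ} {X₀ : ℕ} (ha : 0 < a) {G : ℕ → Finset ℕ}
    (h : ∀ X : ℕ, X₀ ≤ X → a * X / Real.sqrt (Real.log X) ≤ ((G X).card : ℝ))
    (hG : ∀ X D, D ∈ G X → D ∈ Finset.Icc 1 X ∧ Wide D ∧ P D) : OfOrder P := by
  refine ⟨a, X₀, ha, fun X hX => (h X hX).trans (Nat.cast_le.2 (Finset.card_le_card fun D hD => ?_))⟩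
  rw [Finset.mem_filter]
  exact hG X D hD

theorem prop_of {δ : ℝ} {P Q : ℕ → Prop} (h : Run7.h359.LB.Prp δ P) (hPQ : ∀ D, P D ↔ Q D) :
    Proportion δ Q := by
  have e : P = Q := funext fun D => propext (hPQ D)
  subst e
  exact h

theorem pair_of {δ : ℝ} {P Q : ℕ → Prop} (h : Run7.h359.LB.PrB δ P) (hPQ : ∀ D, P D ↔ Q D) :
    PairProportion δ Q := by
  have e : P = Q := funext fun D => propext (hPQ D)
  subst e
  exact h

/-- **The Bloch–Kato ranks at `p = 2` are at most the orders of vanishing in all the even weights.** -/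
theorem result :
    (∀ (n M : ℕ) (d : Fin n → ℕ), Ind d → GoodPair M d → AllBounds M d) ∧
    (∀ (n M : ℕ) (d : Fin n → ℕ), Wide M → (∀ i, Wide (d i)) → Ind d →
      Proportion (c ^ 2 ^ n) (fun D => GoodPair (M * D) d ∧ AllBounds (M * D) d) ∧
      PairProportion (c ^ 2 ^ n / 4)
        (fun N => N % 8 = 1 ∧ GoodPair (M * N) d ∧ AllBounds (M * N) d) ∧
      (GoodPair M d → Proportion (c ^ 2 ^ n)
        fun D => Ind (add d D) ∧ GoodPair M (add d D) ∧ AllBounds M (add d D))) ∧
    OfOrder (fun _ => True) ∧ 0.4194 < c ∧ c < 0.4195 := by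
  obtain ⟨-, -, -, h4, h5⟩ := Pool.Agent.Results.MP_787500_nt.AllWeightsMultiquadraticX49.result
  refine ⟨fun n M d hI h => all_bounds h hI, fun n M d hM hd hI => ⟨?_, ?_, fun hG => ?_⟩, ?_, h4, h5⟩
  · exact prop_of (Run7.h359.LB.prp_good hM hd hI) fun D => ⟨fun h => ⟨h, all_bounds h hI⟩,
      fun h => h.1⟩
  · exact pair_of (Run7.h359.LB.prB_good hM hd hI) fun D => ⟨fun h => ⟨h.1, h.2, all_bounds h.2 hI⟩,
      fun h => ⟨h.1, h.2.1⟩⟩
  · exact prop_of (Run7.h359.LB.prp_add hM hd hI hG) fun D => ⟨fun h => ⟨h.1, h.2, all_bounds h.2 h.1⟩,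
      fun h => ⟨h.1, h.2.1⟩⟩
  · have h1 : Wide 1 := ⟨squarefree_one, rfl, fun p hp hp1 => absurd (Nat.dvd_one.1 hp1) hp.one_lt.ne'⟩
    obtain ⟨a, X₀, ha, h⟩ := Run7.h359.CW.cnt_good (d := fun i : Fin 0 => i.elim0) h1 fun i => i.elim0
    refine ofOrder_of ha h fun X D hD => ?_
    rw [Finset.mem_filter] at hD
    exact ⟨hD.1, hD.2.1, trivial⟩

end Pool.Agent.Results.MP_ec4e4b_nt.EvenWeightsInequality
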