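import Pool.Agent.Results.MP_787500_nt.AllWeightsMultiquadraticX49
import Pool.Agent.Results.MP_6e2fc3_nt.CMFormsAllWeights
import Pool.Agent.Results.MP_d4aa36_nt.InfiniteTowersCMForms
import Pool.Agent.Run7.h359.Nf
import Pool.Agent.Run7.h359.Lfw
import Pool.Agent.Run7.h359.Cw
import Pool.Agent.Run7.h359.La13

/-!
# The order of vanishing formula at `p = 2` for motives of all odd weights `2k - 1`, `k` odd, over
# infinitely many totally real and CM fields

Let `E_M` be the quadratic twist by `M` of `X_0(49)`, `ψ_M` its Hecke character over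
`K = ℚ(√-7) = ℚ(w)`, `w² = w - 2`, let `F = ℚ(√d_1, …, √d_n)`, a totally real field, and `L = F(√-7)`.
For odd `k > 0` let `M_k` be the polarized Chow motive of rank two over `ℚ`, the part of
`h^{2k-1}(E_M^{2k-1})(k)` that belongs to `ψ_M^{2k-1}` and its complex conjugate, that is, to the
newform of weight `2k` with rational coefficients of `ψ_M^{2k-1}`.

* The Euler factor of `M_k` over `F` at the place `v` of `F` is
  `1 / ((1 - α^{2k-1} q^{-s-k}) (1 - β^{2k-1} q^{-s-k}))`, where `(1 - α T) (1 - β T)` is the local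
  polynomial of `E_M` at `v` (of Mathlib) and `q` is the norm of `v`. As `M_k` is isomorphic to its twist by
  the character of `K`, the `L`-function over `L` is the square of the one over `F`.
* The representation of `Gal(ℚ̄/K)` is the sum of the characters `κ^k κ'^(1-k)` and
  `κ^(1-k) κ'^k`, where `κ`, `κ'` are the characters by which `Gal(ℚ̄/K)` acts on the `2`-adic
  Tate module of `E_M`; the representation of `Gal(ℚ̄/ℚ)` is induced from the first of them.

The class consists of the squarefree `D = 1 mod 8` with all prime factors `1 mod 4`. A pair of `M` and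
`d_1, …, d_n` is good if all the `M ∏_{i ∈ T} d_i` are, up to squares, numbers `D` of the class such that
`E_D(ℚ)` is finite and `Ш(E_D/ℚ)` has no element of order two, a condition on the weight `2` and the field
`ℚ` only.

Theorem: if the pair is good, then for the motives `M_k` with **all** odd `k` and the prime `p = 2` the
formula of the problem holds over `F` and over `L`, both sides being zero: the `L`-functions are entire
and not zero at the centre, and `H⁰` and the Bloch–Kato Selmer groups `H¹_f` are zero. For all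
independent `d_1, …, d_n` of the class (in particular `n = 0`, `F = ℚ`, `L = K`):
* the pair `(M D, d)` is good for **exactly** the proportion `c ^ 2 ^ n` of the `D` of the class,
  `c = 0.4194…`. The class has the order of magnitude `X / √(log X)` (Landau);
* for **exactly** the proportion `c ^ 2 ^ n / 4` of all the pairs `(a, b)` of integers, ordered by
  `N = a² + b²`, one has `N = 1 mod 8` and the pair `(M N, d)` is good. (A quarter of all the pairs of
  integers have `N = 1 mod 8`);
* if the pair `(M, d)` is good, then it remains good for exactly the proportion `c ^ 2 ^ n` of the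
  `d_{n+1} = D` of the class, that is, of the quadratic extensions of `F`.

For the subclass of the numbers with prime factors `1 mod 8` and split in `K` or `5 mod 8` and inert in
`K` the Selmer groups are from the starting files
`MP_787500_nt/AllWeightsMultiquadraticX49` and `MP_6e2fc3_nt/CMFormsAllWeights`; they are extended to the
class here (`Run7/h359/Wsel`, `Wal`). New here are also the central values for all odd `k > 1` (and `H⁰`).
The proof is in `Run7/h359`. The value `L(ψ_D^{2k-1}, k)` is a weighted sum over the points of `E` of odd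
order dividing `D √-7` of the coefficients of the expansion of the theta function of Kronecker. For odd
`k` these are congruent modulo `8`, at a prime above `2`, to a multiple of those for `k = 1`. Induction
over the divisors of `D`, with the known `2`-adic valuations for `k = 1` as an input, determines the
`2`-adic valuation of the algebraic part of `L(ψ_D^{2k-1}, k)`; in particular the value is not zero.
The decomposition of the primes in `F` is from `Run7/h401/MQ` (helper401).

The proportions: the starting files (`R413`) have the joint law for the squarefree numbers with all prime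
factors `1 mod 4`, helper428 (`Run7/h428`) for the pairs of integers with the weights `2 ^ ω`, with the
count of the pairs by helper238 (`Run7/h238`). Here (`Run7/h359/La1` to `La13`) both laws are proved for
the sets of primes with a given label in a finite abelian group, in particular for the numbers
`1 mod 8`.
-/

set_option autoImplicit false

namespace Pool.Agent.Results.MP_ec4e4b_nt.OddWeightsMultiquadratic

open Pool.Agent.Results.MP_787500_nt.AllWeightsMultiquadraticX49
open Pool.Agent.Results.MP_6e2fc3_nt.CMFormsAllWeights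
open NumberField IsDedekindDomain WeierstrassCurve Filter Topology
open scoped Classical

/-! ### The `L`-functions -/

/-- `α ^ n + β ^ n`, where `α + β = a` and `α β = e`. -/
def powerSum (a e : ℤ) : ℕ → ℤ
  | 0 => 2
  | 1 => a
  | n + 2 => a * powerSum a e (n + 1) - e * powerSum a e n

/-- The local polynomial `1 - a T + e T² = (1 - α T) (1 - β T)` of the curve `W` over the number field
`F` at the place `v`: at the places of good reduction `e` is the norm `q` of `v` and
`a = q + 1 - #W(k_v)`, and the polynomial is `1` at the places of additive reduction. -/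
noncomputable def localPoly {F : Type} [Field F] [NumberField F] (W : WeierstrassCurve F)
    (v : HeightOneSpectrum (𝓞 F)) : Polynomial ℤ :=
  (W.baseChange (v.adicCompletion F)).localPolynomial (v.adicCompletionIntegers F)

/-- The Euler factor `1 / ((1 - α ^ n q^{-s}) (1 - β ^ n q^{-s}))`, where `(1 - α T) (1 - β T)` is the
local polynomial of the curve `W` at the place `v` of norm `q`. -/
noncomputable def factor {F : Type} [Field F] [NumberField F] (W : WeierstrassCurve F) (n : ℕ) (s : ℂ)
    (v : HeightOneSpectrum (𝓞 F)) : ℂ :=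
  (1 - (powerSum (-(localPoly W v).coeff 1) ((localPoly W v).coeff 2) n : ℂ) *
      (Ideal.absNorm v.asIdeal : ℂ) ^ (-s) +
    ((localPoly W v).coeff 2 : ℂ) ^ n * ((Ideal.absNorm v.asIdeal : ℂ) ^ (-s)) ^ 2)⁻¹

/-- `Λ` is the entire continuation of the `L`-function over `F` of the newform of weight `2k` that belongs
to the curve `W` with complex multiplication: the Euler product over the places of `F` with the factors
`factor W (2k-1) s` converges to `Λ(s)` for `Re s > k + 1/2`. The centre is `s = k`. -/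
def IsLFunction {F : Type} [Field F] [NumberField F] (W : WeierstrassCurve F) (k : ℕ)
    (Λ : ℂ → ℂ) : Prop :=
  Differentiable ℂ Λ ∧
    ∀ s : ℂ, (k : ℝ) + 1 / 2 < s.re → HasProd (factor W (2 * k - 1) s) (Λ s)

/-- The field `F = ℚ(s_1, …, s_n)`. -/
noncomputable abbrev Fld {n : ℕ} (s : Fin n → QBar) : IntermediateField ℚ QBar :=
  IntermediateField.adjoin ℚ (Set.range s)

instance numField {n : ℕ} (s : Fin n → QBar) : NumberField (Fld s) := Run7.h359.FE.nf_adj s

/-- The curve `E_M` over `F = ℚ(s_1, …, s_n)`. -/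
noncomputable def EF {n : ℕ} (s : Fin n → QBar) (M : ℕ) : WeierstrassCurve (Fld s) :=
  (E M).map (algebraMap ℚ (Fld s))

/-! ### The class -/

/-- The class: `D = 1 mod 8` is squarefree, and all its prime factors are `1 mod 4`. -/
def Wide (D : ℕ) : Prop := Squarefree D ∧ D % 8 = 1 ∧ ∀ p : ℕ, p.Prime → p ∣ D → p % 4 = 1

/-- The good pairs: all the numbers `M ∏_{i ∈ T} d_i` are, up to nonzero squares, numbers `D` of the
class such that `E_D(ℚ)` is finite and `Ш(E_D/ℚ)` has no element of order two. -/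
def GoodPair (M : ℕ) {n : ℕ} (d : Fin n → ℕ) : Prop := ∀ T : Finset (Fin n), ∃ D k : ℕ,
  k ≠ 0 ∧ Wide D ∧ RankZeroShaTwo D ∧ M * ∏ i ∈ T, d i = D * k ^ 2

/-- For large `X` at least `a X / √(log X)` of the `D ≤ X` of the class have the property `P`,
with a constant `a > 0`. -/
def OfOrder (P : ℕ → Prop) : Prop := ∃ (a : ℝ) (X₀ : ℕ), 0 < a ∧ ∀ X : ℕ, X₀ ≤ X →
  a * X / Real.sqrt (Real.log X) ≤ (((Finset.Icc 1 X).filter fun D => Wide D ∧ P D).card : ℝ)

/-- The property `P` holds for the proportion `δ` of the numbers `D` of the class. -/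
def Proportion (δ : ℝ) (P : ℕ → Prop) : Prop := Tendsto (fun X : ℕ =>
  (((Finset.Icc 1 X).filter fun D => Wide D ∧ P D).card : ℝ) /
    (((Finset.Icc 1 X).filter fun D => Wide D).card : ℝ)) atTop (𝓝 δ)

/-- The number of the pairs `(a, b)` of integers with `a² + b² ≤ X` and with `P (a² + b²)`. -/
noncomputable def pairs (P : ℕ → Prop) (X : ℕ) : ℕ :=
  Nat.card {v : ℤ × ℤ // v.1.natAbs ^ 2 + v.2.natAbs ^ 2 ≤ X ∧ P (v.1.natAbs ^ 2 + v.2.natAbs ^ 2)}

/-- `P (a² + b²)` holds for the proportion `δ` of all the pairs `(a, b)` of integers, ordered by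
`a² + b²`. -/
def PairProportion (δ : ℝ) (P : ℕ → Prop) : Prop := Tendsto (fun X : ℕ =>
  (pairs P X : ℝ) / (pairs (fun _ => True) X : ℝ)) atTop (𝓝 δ)

/-! ### The invariants -/

/-- `H⁰(L, ℚ_2(χ)) = 0` for `L = K(s_1, …, s_n)`. -/
def NoInvariants {w : QBar} {n : ℕ} (s : Fin n → QBar) (χ : Chr w) : Prop :=
  ∀ y : ℚ_[2], (∀ σ ∈ GalL w s, qv χ σ * y = y) → y = 0

/-- `H⁰(F, V) = 0` for `F = ℚ(s_1, …, s_n)` and the representation `V` induced from `χ`. -/
def NoInvariantsF {w : QBar} {n : ℕ} (s : Fin n → QBar) (χ : Chr w) (c₀ : GQ) : Prop :=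
  ∀ y : ℚ_[2] × ℚ_[2], (∀ σ ∈ GF s, ind χ c₀ σ y = y) → y = 0

/-! ### The formula -/

/-- The formula over `F = ℚ(s_1, …, s_n)`, both sides being zero: the `L`-function `Λ` over `F` is
entire and not zero at the centre `k`, and `H⁰(F, V)` and `H¹_f(F, V)` are zero for the representation `V`
induced from the character `κ^k κ'^(1-k)`. -/
def FormulaF (M : ℕ) {w : QBar} {n : ℕ} (s : Fin n → QBar) (κ κ' : Chr w) (k : ℕ) (Λ : ℂ → ℂ) : Prop :=
  (IsLFunction (EF s M) k Λ ∧ Λ k ≠ 0) ∧
  ∀ c₀ : GQ, c₀ w = 1 - w → NoInvariantsF s (chi κ κ' k) c₀ ∧ Zero s (chi κ κ' k) c₀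

/-- The formula over `L = K(s_1, …, s_n)`, both sides being zero: the `L`-function `Λ ^ 2` over `L` is
entire and not zero at the centre `k`, and `H⁰` and `H¹_f` are zero for the two characters
`κ^k κ'^(1-k)` and `κ^(1-k) κ'^k`. -/
def FormulaL {w : QBar} {n : ℕ} (s : Fin n → QBar) (κ κ' : Chr w) (k : ℕ) (Λ : ℂ → ℂ) : Prop :=
  (Differentiable ℂ (fun z => Λ z ^ 2) ∧ Λ k ^ 2 ≠ 0) ∧
  (NoInvariants s (chi κ κ' k) ∧ NoInvariants s (chi κ κ' (1 - k))) ∧
  SelmerZero (1 - w) (GalL w s) (chi κ κ' k) ∧ SelmerZero w (GalL w s) (chi κ κ' (1 - k))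

/-- For **all** odd `k > 0` the formula holds for `p = 2` and the motive `M_k` over
`F = ℚ(√d_1, …, √d_n)` and over `L = F(√-7)`: the curve `E_M` is over `K = ℚ(w)` isomorphic to the
elliptic curve `ED w (tw M)`, the absolute Galois group of `K` acts on its `2`-adic Tate module by
`κ`, `κ'`, and the formula holds for the `L`-functions and the representations made from these. -/
def AllFormulas (M : ℕ) {n : ℕ} (d : Fin n → ℕ) : Prop := ∀ w : QBar, w ^ 2 = w - 2 →
  Iso (EK w M) (ED w (tw M)) ∧ (ED w (tw M)).IsElliptic ∧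
  ∃ κ κ' : Chr w, TateModule (tw M) κ κ' ∧
    ∀ s : Fin n → QBar, (∀ i, s i ^ 2 = (d i : QBar)) → ∀ k : ℕ, Odd k →
      ∃ Λ : ℂ → ℂ, FormulaF M s κ κ' k Λ ∧ FormulaL s κ κ' k Λ

section proof

open Pool.Agent.W189.NF Pool.Agent.H921R2.TatePole

lemma powerSum_pw (a e : ℤ) : ∀ n : ℕ, ((powerSum a e n : ℤ) : ℂ) = W165.CE.pw (a : ℂ) (e : ℂ) n
  | 0 => by simp [powerSum, W165.CE.pw]
  | 1 => by simp [powerSum, W165.CE.pw]
  | n + 2 => by
    rw [powerSum, W165.CE.pw, ← powerSum_pw a e (n + 1), ← powerSum_pw a e n]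
    push_cast
    ring

lemma coeffs {F : Type} [Field F] [NumberField F] (W : WeierstrassCurve F)
    (v : HeightOneSpectrum (𝓞 F)) :
    (localPoly W v).coeff 1 = -aV W v ∧ (localPoly W v).coeff 2 = eV W v := by
  unfold localPoly aV eV
  rw [localPolynomial_eq]
  constructor
  · rw [Polynomial.coeff_add, Polynomial.coeff_sub, Polynomial.coeff_C_mul, Polynomial.coeff_C_mul,
      Polynomial.coeff_X, Polynomial.coeff_X_pow, Polynomial.coeff_one]
    norm_num
  · rw [Polynomial.coeff_add, Polynomial.coeff_sub, Polynomial.coeff_C_mul, Polynomial.coeff_C_mul,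
      Polynomial.coeff_X, Polynomial.coeff_X_pow, Polynomial.coeff_one]
    norm_num

lemma factor_eq {F : Type} [Field F] [NumberField F] (W : WeierstrassCurve F) (n : ℕ) (s : ℂ) :
    factor W n s = Run7.h359.FE.facF W n s := by
  funext v
  unfold factor Run7.h359.FE.facF
  rw [(coeffs W v).1, (coeffs W v).2, neg_neg, powerSum_pw]
  rfl

/-- the central values -/
theorem lfun {M n : ℕ} {d : Fin n → ℕ} (hG : GoodPair M d) {s : Fin n → QBar}
    (hs : ∀ i, s i ^ 2 = (d i : QBar)) {k : ℕ} (hk : Odd k) :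
    ∃ Λ : ℂ → ℂ, IsLFunction (EF s M) k Λ ∧ Λ k ≠ 0 := by
  obtain ⟨Λ, g1, g2, g3⟩ := Run7.h359.FW.lfieldW (F := Fld s) hG
    (s := fun i => ⟨s i, IntermediateField.subset_adjoin ℚ _ ⟨i, rfl⟩⟩) (fun i => by
      apply Subtype.ext
      push_cast
      exact hs i) (Run7.h359.FE.gen_adj s) hk
  refine ⟨Λ, ⟨g1, fun z hz => ?_⟩, g3⟩
  rw [factor_eq]
  unfold EF
  rw [Run7.h359.FE.E_cur]
  exact g2 z hz

theorem all_formulas {M n : ℕ} {d : Fin n → ℕ} (hG : GoodPair M d) : AllFormulas M d := by
  intro w hw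
  obtain ⟨h1, h2, κ, κ', h3, h4⟩ := Run7.h359.WD.all_ofW hG hw
  refine ⟨h1, h2, κ, κ', h3, fun s hs k hk => ?_⟩
  obtain ⟨h5, h6⟩ := h4 s hs
  have hkp : (0 : ℤ) < (k : ℤ) := by exact_mod_cast hk.pos
  have hko : Odd (k : ℤ) := by exact_mod_cast hk
  obtain ⟨h7, h8⟩ := h5 k hkp hko
  obtain ⟨Λ, g1, g3⟩ := lfun hG hs hk
  exact ⟨Λ, ⟨⟨g1, g3⟩, fun c₀ hc₀ => ⟨Run7.h359.IV.noInvF_of hs hc₀ (h6 k), zero_of hw hc₀ hs h7⟩⟩,
    ⟨g1.1.pow 2, pow_ne_zero 2 g3⟩,
    ⟨Run7.h359.IV.noInvL_of (h6 k), Run7.h359.IV.noInvL_of (h6 (1 - k))⟩, h7, h8⟩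

theorem wide_of_adm {D : ℕ} (h : Adm D) : Wide D :=
  ⟨h.1, h.2.1, fun p hp hd => by rcases h.2.2 p hp hd with h | h <;> omega⟩

theorem good_of_good {M n : ℕ} {d : Fin n → ℕ} (h : Good M d) : GoodPair M d := by
  intro T
  obtain ⟨D, k, hk, hD, hR, he⟩ := h T
  exact ⟨D, k, hk, wide_of_adm hD, hR, he⟩

theorem ofOrder_of {P : ℕ → Prop} {a : ℝ} {X₀ : ℕ} (ha : 0 < a) {G : ℕ → Finset ℕ}
    (h : ∀ X : ℕ, X₀ ≤ X → a * X / Real.sqrt (Real.log X) ≤ ((G X).card : ℝ))
    (hG : ∀ X D, D ∈ G X → D ∈ Finset.Icc 1 X ∧ Wide D ∧ P D) : OfOrder P := by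
  refine ⟨a, X₀, ha, fun X hX => (h X hX).trans (Nat.cast_le.2 (Finset.card_le_card fun D hD => ?_))⟩
  rw [Finset.mem_filter]
  exact hG X D hD

theorem ofOrder_mono {P Q : ℕ → Prop} (h : ∀ D, P D → Q D) (hP : OfOrder P) : OfOrder Q := by
  obtain ⟨a, X₀, ha, h1⟩ := hP
  refine ⟨a, X₀, ha, fun X hX => (h1 X hX).trans ?_⟩
  refine Nat.cast_le.2 (Finset.card_le_card fun D hD => ?_)
  rw [Finset.mem_filter] at hD ⊢
  exact ⟨hD.1, hD.2.1, h D hD.2.2⟩

theorem prop_of {δ : ℝ} {P Q : ℕ → Prop} (h : Run7.h359.LB.Prp δ P) (hPQ : ∀ D, P D ↔ Q D) :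
    Proportion δ Q := by
  have e : P = Q := funext fun D => propext (hPQ D)
  subst e
  exact h

theorem pair_of {δ : ℝ} {P Q : ℕ → Prop} (h : Run7.h359.LB.PrB δ P) (hPQ : ∀ D, P D ↔ Q D) :
    PairProportion δ Q := by
  have e : P = Q := funext fun D => propext (hPQ D)
  subst e
  exact h

end proof

/-- **The order of vanishing formula at `p = 2` in all the odd weights.** -/
theorem result :
    (∀ (n M : ℕ) (d : Fin n → ℕ), GoodPair M d → AllFormulas M d) ∧
    (∀ (n M : ℕ) (d : Fin n → ℕ), Wide M → (∀ i, Wide (d i)) → Ind d →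
      Proportion (c ^ 2 ^ n) (fun D => GoodPair (M * D) d ∧ AllFormulas (M * D) d) ∧
      PairProportion (c ^ 2 ^ n / 4)
        (fun N => N % 8 = 1 ∧ GoodPair (M * N) d ∧ AllFormulas (M * N) d) ∧
      (GoodPair M d → Proportion (c ^ 2 ^ n)
        fun D => Ind (add d D) ∧ GoodPair M (add d D) ∧ AllFormulas M (add d D))) ∧
    OfOrder (fun _ => True) ∧ 0.4194 < c ∧ c < 0.4195 := by
  obtain ⟨-, -, -, h4, h5⟩ := Pool.Agent.Results.MP_787500_nt.AllWeightsMultiquadraticX49.result
  refine ⟨fun n M d h => all_formulas h, fun n M d hM hd hI => ⟨?_, ?_, fun hG => ?_⟩, ?_, h4, h5⟩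
  · exact prop_of (Run7.h359.LB.prp_good hM hd hI) fun D => ⟨fun h => ⟨h, all_formulas h⟩,
      fun h => h.1⟩
  · exact pair_of (Run7.h359.LB.prB_good hM hd hI) fun D => ⟨fun h => ⟨h.1, h.2, all_formulas h.2⟩,
      fun h => ⟨h.1, h.2.1⟩⟩
  · exact prop_of (Run7.h359.LB.prp_add hM hd hI hG) fun D => ⟨fun h => ⟨h.1, h.2, all_formulas h.2⟩,
      fun h => ⟨h.1, h.2.1⟩⟩
  · have h1 : Wide 1 := ⟨squarefree_one, rfl, fun p hp hp1 => absurd (Nat.dvd_one.1 hp1) hp.one_lt.ne'⟩
    exact ofOrder_mono (P := fun D => GoodPair (1 * D) (fun i : Fin 0 => i.elim0)) (fun _ _ => trivial)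
      (Run7.h359.CW.cnt_good h1 fun i => i.elim0)

end Pool.Agent.Results.MP_ec4e4b_nt.OddWeightsMultiquadratic
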